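import Pool.Agent.X298.GP.Main

/-!
# The Gross–Prasad conjecture for a fixed form and a whole space of forms: one sum with Hecke traces

Let `π_{n+1}` be a tempered cuspidal representation of `SO(V_{n+1})` over the number field `F`, and `π_n^{(i)}`, `i ∈ I`, a finite
family of tempered cuspidal representations of `SO(V_n)`, for instance all those of a given level and given weights which
satisfy the local conditions of the problem with `π_{n+1}`. Let `S` be a finite set of places containing the ramified ones, `tr π_v^k` and
`tr σ_{i,v}^k` the traces of the `k`-th powers of the Satake parameters (in the standard representations, eigenvalues of absolute value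
`1`), and `t_v(k) = ∑_i tr σ_{i,v}^k`: the trace of a Hecke operator at `v` on the space spanned by the spherical vectors of the family,
which is given by a trace formula. For `γ > π / 2`, `T > 0` let

  `H(T) = ∑_{v ∉ S} ∑_{k ≥ 1} tr π_v^k · t_v(k) q_v^{-k/2} e^{iγu} / (k Γ(1 + u))`,  `u = k log q_v / T`.

Suppose that the `L_S(s, π_{n+1} ⊠ π_n^{(i)})` have continuations, meromorphic at the points of `[1/2, 1]` and holomorphic at `1/2`. We show:

* `H(T)` converges absolutely, and `exp H(T) = ∏_i L_S(1/2, π_{n+1} ⊠ π_n^{(i)}) + O(1/T)`;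
* `- H(T) / log T` tends to the sum `M` of the orders of vanishing at `1/2`;
* all the central values are nonzero if and only if `Re H(T)` is bounded from below for large `T`, if and only if it does not tend to
  `- ∞`; so, if the conjecture holds for these pairs, then **the period integral is nonzero for all members of the family if and only if
  the one real function `Re H(T)` is bounded from below**;
* if the orders are even (the local conditions force the sign `+1` of the functional equation), then, if the conjecture holds for these pairs,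
  **the number of members of the family with vanishing period integral is at most `M / 2`**, where `M = - lim H(T) / log T`.

For a family with one member this is a criterion for a single pair.
-/

set_option autoImplicit false

open Filter Topology
open IsDedekindDomain NumberField

namespace Pool.Agent.Results.MP_6342b0_nt.WholeSpaceOfForms

open Pool.Agent.X298.ST Pool.Agent.X298.II Pool.Agent.X298.HT Pool.Agent.X298.GP

/-- **Periods against a whole space of forms and one sum with Hecke traces.** -/
theorem result {F : Type} [Field F] [NumberField F] (S : Set (HeightOneSpectrum (𝓞 F))) (N₁ N₂ : ℕ)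
    (π : Param S N₁) {I : Type} [Fintype I] (σ : I → Param S N₂) (Λ : I → ℂ → ℂ)
    (hc : ∀ i, IsCont (Pool.Agent.X298.GP.rs π (σ i)) (1 / 2) (Λ i)) (ha : ∀ i, AnalyticAt ℂ (Λ i) (1 / 2))
    (γ : ℝ) (hγ : Real.pi / 2 < γ) :
    (∀ T : ℝ, 0 < T → Summable fun x => ‖gTerm π σ γ T x‖) ∧
    (fun T : ℝ => Complex.exp (gSum π σ γ T) - ∏ i, Λ i (1 / 2)) =O[atTop] (fun T : ℝ => 1 / T) ∧
    ∃ m : I → ℕ, (∀ i, meromorphicOrderAt (Λ i) (1 / 2) = ((m i : ℤ) : WithTop ℤ)) ∧
      Tendsto (fun T : ℝ => gSum π σ γ T / (Real.log T : ℂ)) atTop (𝓝 (-((∑ i, m i : ℕ) : ℂ))) ∧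
      ∀ Per : I → Prop, (∀ i, Per i ↔ Λ i (1 / 2) ≠ 0) →
        ((∀ i, Per i) ↔ ∃ C : ℝ, ∀ᶠ T : ℝ in atTop, C ≤ (gSum π σ γ T).re) ∧
        ((∀ i, Per i) ↔ ∃ C : ℝ, ∃ᶠ T : ℝ in atTop, C ≤ (gSum π σ γ T).re) ∧
        ((∀ i, Even (m i)) → 2 * Nat.card {i // ¬ Per i} ≤ ∑ i, m i) := by
  classical
  obtain ⟨m, r, h1, h2, h3, h4⟩ := main π σ Λ hc ha hγ
  refine ⟨fun T hT => g_summable π σ γ hT, ?_, m, h1, lim_neg h4, fun Per hPer => ?_⟩
  · rw [h2]
    exact exp_asy h4
  · have hall : (∀ i, Per i) ↔ ∑ i, m i = 0 := by
      rw [Finset.sum_eq_zero_iff]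
      constructor
      · intro h i _
        by_contra h0
        exact (hPer i).mp (h i) ((h3 i).mpr h0)
      · intro h i
        exact (hPer i).mpr fun h0 => (h3 i).mp h0 (h i (Finset.mem_univ i))
    obtain ⟨b1, b2⟩ := bdd_iff h4
    refine ⟨hall.trans b1, hall.trans b2, fun hev => ?_⟩
    rw [Nat.card_eq_fintype_card, Fintype.card_subtype, mul_comm, ← smul_eq_mul, ← Finset.sum_const]
    refine (Finset.sum_le_sum (f := fun _ => 2) (g := m) fun i hi => ?_).trans
      (Finset.sum_le_sum_of_subset (Finset.filter_subset _ _))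
    rw [Finset.mem_filter] at hi
    have h5 : Λ i (1 / 2) = 0 := by
      by_contra h0
      exact hi.2 ((hPer i).mpr h0)
    have h6 : m i ≠ 0 := (h3 i).mp h5
    obtain ⟨k, hk⟩ := hev i
    omega

end Pool.Agent.Results.MP_6342b0_nt.WholeSpaceOfForms
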